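import Pool.Agent.N637.SLM.Stm
import Pool.Agent.N530.SLK.N2

/-!
# SLM/N2a: the place 2, necessity, `c = 0 mod 8`, `m = 5 mod 8`
-/

set_option autoImplicit false

namespace Pool.Agent.N490.SLM

open Pool.Agent.TH841.SH (LocC SelG)
open Pool.Agent.Y667.RP (mod_of_sq)
open Pool.Agent.N875.X15 (even_val sq_cancel sq_trans close2 sq_of_mod8 unit_part unit_odd int_of_sq
  val_add_eq val_zero not_dvd_of_even to_coord mod8_int odd_of_sq)
open Pool.Agent.N637.P21 (v2)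
open Pool.Agent.N530.SLK (Un un_sq val_un)

theorem mod5 {m : ℤ} (hm8 : m % 8 = 5) : PadicInt.toZModPow (p := 2) 3 (m : ℤ_[2]) = 5 := by
  rw [map_intCast]
  have : ((8 : ℕ) : ℤ) ∣ m - 5 := by push_cast; omega
  have h2 := (ZMod.intCast_zmod_eq_zero_iff_dvd (m - 5) 8).2 this
  rw [Int.cast_sub] at h2
  have h3 := sub_eq_zero.1 h2
  rw [h3]
  rfl

theorem core {m : ℤ} (hm8 : m % 8 = 5) {α κ : ℤ_[2]} (hα : Un α) (hκ : Un κ) {h : ℕ} (hh : 3 ≤ h)
    {v : ℚ_[2]} (hv : v ≠ 0) (hA : v + α * m ≠ 0) (hC : v + 2 ^ (2 * h) * κ * m ≠ 0)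
    (hs : IsSquare (v * (v + α * m) * (v + 2 ^ (2 * h) * κ * m))) :
    Even v.valuation ∧ (IsSquare (v + α * m) ∨ IsSquare (5 * (v + α * m))) := by
  have hm : m ≠ 0 := by rintro rfl; simp at hm8
  have hm' : (m : ℚ_[2]) ≠ 0 := by exact_mod_cast hm
  have vm : (m : ℚ_[2]).valuation = 0 := val_zero (by push_cast; omega)
  have va : ((α : ℚ_[2]) * (m : ℚ_[2])).valuation = 0 := by rw [val_un hα hm, vm]
  have h2f : (2 : ℚ_[2]) ^ (2 * h) ≠ 0 := pow_ne_zero _ two_ne_zero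
  have vf : ((2 : ℚ_[2]) ^ (2 * h) * κ * m).valuation = 2 * (h : ℤ) := by
    rw [Padic.valuation_mul (mul_ne_zero h2f hκ.ne) hm', Padic.valuation_mul h2f hκ.ne, hκ.val, vm,
      Padic.valuation_pow, v2]
    push_cast
    ring
  have haq : (α : ℚ_[2]) * m ≠ 0 := mul_ne_zero hα.ne hm'
  have hfq : (2 : ℚ_[2]) ^ (2 * h) * κ * m ≠ 0 := mul_ne_zero (mul_ne_zero h2f hκ.ne) hm'
  have hmm := mod5 hm8
  obtain ⟨s, hs1, hs2⟩ := unit_part hv
  have hodd := unit_odd hs1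
  have c8 : PadicInt.toZModPow (p := 2) 3 8 = 8 := map_ofNat (PadicInt.toZModPow (p := 2) 3) 8
  have c5 : PadicInt.toZModPow (p := 2) 3 5 = 5 := map_ofNat (PadicInt.toZModPow (p := 2) 3) 5
  have c2 : PadicInt.toZModPow (p := 2) 3 2 = 2 := map_ofNat (PadicInt.toZModPow (p := 2) 3) 2
  have d8 : ((8 : ℤ_[2]) : ℚ_[2]) = 8 := rfl
  have d5 : ((5 : ℤ_[2]) : ℚ_[2]) = 5 := rfl
  have d2 : ((2 : ℤ_[2]) : ℚ_[2]) = 2 := rfl
  have h8 : 3 ≤ v.valuation → ∃ s' : ℤ_[2], v = 8 * s' := by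
    intro h3
    obtain ⟨j, hj⟩ : ∃ j : ℕ, v.valuation = 3 + j := ⟨(v.valuation - 3).toNat, by omega⟩
    refine ⟨2 ^ j * s, ?_⟩
    conv_lhs => rw [hs2]
    have e3 : (2 : ℚ_[2]) ^ (3 : ℤ) = 8 := by norm_num
    rw [hj, zpow_add₀ two_ne_zero, zpow_natCast, e3]
    push_cast
    rw [d2]
    ring
  have key : ∀ t : ℤ_[2], (∃ z : ℚ_[2], z ^ 2 = t) → PadicInt.toZModPow 3 t ≠ 3 ∧
      PadicInt.toZModPow 3 t ≠ 5 ∧ PadicInt.toZModPow 3 t ≠ 7 := by
    rintro t ⟨z, hz⟩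
    obtain ⟨r, hr⟩ := int_of_sq hz
    rw [← hr, map_pow]
    have : ∀ t : ZMod (2 ^ 3), t ^ 2 ≠ 3 ∧ t ^ 2 ≠ 5 ∧ t ^ 2 ≠ 7 := by decide
    exact this _
  have hx : ∀ s' : ℤ_[2], PadicInt.toZModPow 3 (8 * s' + α * (m : ℤ_[2])) = 5 := by
    intro s'
    rw [map_add, map_mul, map_mul, c8, hα.one, hmm]
    have : ∀ t : ZMod (2 ^ 3), 8 * t + 1 * 5 = 5 := by decide
    exact this _
  rcases le_or_gt (v.valuation + 3) (2 * (h : ℤ)) with c1 | c1
  · have h1 := (close2 hC hv (by rw [add_sub_cancel_left]; exact hfq) (by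
      rw [add_sub_cancel_left, vf]
      exact c1)).1
    have hA2 : IsSquare (v + α * m) := by
      have e : v * (v + α * m) * (v + 2 ^ (2 * h) * κ * m) =
        ((v + 2 ^ (2 * h) * κ * m) * v) * (v + α * m) := by ring
      rw [e] at hs
      exact sq_cancel (mul_ne_zero hC hv) h1 hs
    refine ⟨?_, Or.inl hA2⟩
    by_contra hne
    rw [Int.not_even_iff_odd] at hne
    obtain ⟨k, hk⟩ := hne
    rcases lt_or_ge v.valuation 0 with c | c
    · have e1 := val_add_eq hv haq hA (by rw [va]; exact c)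
      obtain ⟨r, hr⟩ := even_val hA hA2
      omega
    · obtain ⟨z, hz⟩ := hA2
      rcases le_or_gt v.valuation 2 with c' | c'
      · have c'' : v.valuation = 1 := by omega
        rw [c'', zpow_one] at hs2
        have h3 := key (2 * s + α * (m : ℤ_[2])) ⟨z, by
          push_cast
          rw [d2, pow_two, ← hz, ← hs2]⟩
        rw [map_add, map_mul, map_mul, c2, hα.one, hmm] at h3
        have h4 : ∀ t : ZMod (2 ^ 3), (t = 1 ∨ t = 3 ∨ t = 5 ∨ t = 7) →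
          ¬ (2 * t + 1 * 5 ≠ 3 ∧ 2 * t + 1 * 5 ≠ 5 ∧ 2 * t + 1 * 5 ≠ 7) := by decide
        exact h4 _ (by simpa using hodd) h3
      · obtain ⟨s', hs'⟩ := h8 (by omega)
        have h3 := key (8 * s' + α * (m : ℤ_[2])) ⟨z, by
          push_cast
          rw [d8, pow_two, ← hz, ← hs']⟩
        exact h3.2.1 (hx s')
  · obtain ⟨s', hs'⟩ := h8 (by omega)
    have h5A : IsSquare (5 * (v + α * m)) := by
      have q := sq_of_mod8 (5 * (8 * s' + α * (m : ℤ_[2]))) (by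
        rw [map_mul, hx, c5]
        decide)
      push_cast at q
      rw [d5, d8, ← hs'] at q
      exact q
    refine ⟨?_, Or.inr h5A⟩
    have hvC : IsSquare (5 * v * (v + 2 ^ (2 * h) * κ * m)) := by
      have h3 := h5A.mul hs
      have e : 5 * (v + α * m) * (v * (v + α * m) * (v + 2 ^ (2 * h) * κ * m)) =
        ((v + α * m) * (v + α * m)) * (5 * v * (v + 2 ^ (2 * h) * κ * m)) := by ring
      rw [e] at h3
      exact sq_cancel (mul_ne_zero hA hA) (IsSquare.mul_self _) h3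
    by_contra hne
    rw [Int.not_even_iff_odd] at hne
    obtain ⟨k, hk⟩ := hne
    have c3 : v.valuation = ((2 * h - 1 : ℕ) : ℤ) ∨ 2 * (h : ℤ) < v.valuation := by omega
    rcases c3 with c3 | c3
    · rw [c3, zpow_natCast] at hs2
      have hq : (2 : ℚ_[2]) ^ (2 * h) = 2 ^ (2 * h - 1) * 2 := by
        rw [← pow_succ]
        congr 1
        omega
      have e : 5 * v * (v + 2 ^ (2 * h) * κ * m) =
          ((2 : ℚ_[2]) ^ (2 * h - 1) * 2 ^ (2 * h - 1)) *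
            (5 * (s : ℚ_[2]) * ((s : ℚ_[2]) + 2 * κ * m)) := by
        rw [hq]
        nth_rewrite 1 2 [hs2]
        ring
      rw [e] at hvC
      have h0 : (2 : ℚ_[2]) ^ (2 * h - 1) ≠ 0 := pow_ne_zero _ two_ne_zero
      obtain ⟨z, hz⟩ := sq_cancel (mul_ne_zero h0 h0) (IsSquare.mul_self _) hvC
      have h3 := key (5 * s * (s + 2 * κ * (m : ℤ_[2]))) ⟨z, by
        push_cast
        rw [d2, d5, pow_two, ← hz]⟩
      rw [map_mul, map_mul, map_add, map_mul, map_mul, c2, c5, hκ.one, hmm] at h3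
      have h4 : ∀ t : ZMod (2 ^ 3), (t = 1 ∨ t = 3 ∨ t = 5 ∨ t = 7) →
        ¬ (5 * t * (t + 2 * 1 * 5) ≠ 3 ∧ 5 * t * (t + 2 * 1 * 5) ≠ 5 ∧
          5 * t * (t + 2 * 1 * 5) ≠ 7) := by decide
      exact h4 _ (by simpa using hodd) h3
    · have e1 := val_add_eq hfq hv (by rwa [add_comm]) (by rw [vf]; exact c3)
      rw [add_comm, vf] at e1
      have h50 : (5 : ℚ_[2]) ≠ 0 := by norm_num
      have v5 : (5 : ℚ_[2]).valuation = 0 := by
        have : ((5 : ℤ) : ℚ_[2]).valuation = 0 := val_zero (by norm_num)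
        exact_mod_cast this
      have h3 := even_val (mul_ne_zero (mul_ne_zero h50 hv) hC) hvC
      rw [Padic.valuation_mul (mul_ne_zero h50 hv) hC, Padic.valuation_mul h50 hv, v5, e1] at h3
      obtain ⟨r, hr⟩ := h3
      omega

/-- SLM-N2a -/
theorem t_N2a : Pool.Agent.N637.SLM.S_N2a := by
  intro m a c hcv hsq hc8 hm8 d1 d2 hd1 hd2 hloc
  obtain ⟨h, k, hk, hkodd⟩ : ∃ (h : ℕ) (k : ℤ), c = 2 ^ h * k ∧ k % 2 = 1 := by
    have hfin : FiniteMultiplicity (2 : ℤ) c :=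
      Int.finiteMultiplicity_iff.2 ⟨by norm_num, hcv.h0⟩
    obtain ⟨k, hk, hk2⟩ := hfin.exists_eq_pow_mul_and_not_dvd
    exact ⟨multiplicity 2 c, k, hk, by omega⟩
  have hh : 3 ≤ h := by
    by_contra hcon
    have : h = 0 ∨ h = 1 ∨ h = 2 := by omega
    rcases this with rfl | rfl | rfl
    · rw [pow_zero] at hk; omega
    · rw [pow_one] at hk; omega
    · norm_num at hk; omega
  obtain ⟨α, hαd⟩ : ∃ α : ℤ_[2], α = ((a ^ 2 : ℤ) : ℤ_[2]) := ⟨_, rfl⟩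
  obtain ⟨κ, hκd⟩ : ∃ κ : ℤ_[2], κ = ((k ^ 2 : ℤ) : ℤ_[2]) := ⟨_, rfl⟩
  have hα : Un α := by rw [hαd]; exact un_sq hcv.ha
  have hκ : Un κ := by rw [hκd]; exact un_sq hkodd
  have hαq : (α : ℚ_[2]) = (a : ℚ_[2]) ^ 2 := by rw [hαd]; push_cast; rfl
  have hκq : (κ : ℚ_[2]) = (k : ℚ_[2]) ^ 2 := by rw [hκd]; push_cast; rfl
  obtain ⟨x, y, hy, hxy, h1, h2⟩ := hloc
  push_cast at hxy h1 h2
  rw [sub_zero] at hxy h1
  obtain ⟨v, hv⟩ : ∃ v, v = x - (a : ℚ_[2]) ^ 2 * m := ⟨_, rfl⟩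
  have e1 : v + α * m = x := by rw [hv, hαq]; ring
  have e2 : v + 2 ^ (2 * h) * κ * m = x - -((c : ℚ_[2]) ^ 2 - (a : ℚ_[2]) ^ 2) * m := by
    rw [hv, hκq, hk]
    push_cast
    ring
  rw [← hv] at h2 hxy
  rw [← e2] at hxy
  have hprod : x * v * (v + 2 ^ (2 * h) * κ * m) ≠ 0 := by
    rw [← hxy]
    exact pow_ne_zero 2 hy
  have hw0 : v + 2 ^ (2 * h) * κ * m ≠ 0 := right_ne_zero_of_mul hprod
  have hx0 : x ≠ 0 := left_ne_zero_of_mul (left_ne_zero_of_mul hprod)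
  have hv0 : v ≠ 0 := right_ne_zero_of_mul (left_ne_zero_of_mul hprod)
  have hs : IsSquare (v * (v + α * m) * (v + 2 ^ (2 * h) * κ * m)) := by
    refine ⟨y, ?_⟩
    rw [e1, ← sq, hxy]
    ring
  obtain ⟨he, hA⟩ := core hm8 hα hκ hh hv0 (by rw [e1]; exact hx0) hw0 hs
  rw [e1] at hA
  constructor
  · rcases hA with h3 | h3
    · have := odd_of_sq hd1 (sq_cancel hx0 h3 h1)
      omega
    · have h4 : IsSquare ((5 : ℚ_[2]) * d1) := sq_trans hx0 h3 h1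
      have h9 : ¬ ((2 : ℕ) : ℤ) ∣ d1 := by
        refine not_dvd_of_even (by norm_num) ?_ hd1 h4
        have : ((5 : ℤ) : ℚ_[2]).valuation = 0 := val_zero (by norm_num)
        have h5' : (5 : ℚ_[2]).valuation = 0 := by exact_mod_cast this
        rw [h5']
        exact Even.zero
      have h11 := mod_of_sq (d := 5 * d1) (by push_cast at h9; omega) (by push_cast; exact h4)
      omega
  · have h9 := not_dvd_of_even hv0 he hd2 h2
    push_cast at h9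
    omega

end Pool.Agent.N490.SLM
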